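import Pool.Agent.R952.ExactPolygon
import Pool.Agent.R244.CP.P_SD
import Pool.Agent.R244.CP.P_GRIDX
import Pool.Agent.R244.CP.P_GRIDQ
import Pool.Agent.R244.CP.P_PL
import Pool.Agent.R244.CP.P_SUBG
import Pool.Agent.R244.CP.P_NCFIN
import Pool.Agent.R244.CP.P_LIM
import Pool.Agent.R244.CP.P_KEYB
import Pool.Agent.R244.CP.P_PROX
import Pool.Agent.R244.CP.P_JORDAN
import Pool.Agent.R244.CP.P_APPROX
import Pool.Agent.R244.CP.P_MEAS
import Pool.Agent.R244.CP.P_ERODE
import Pool.Agent.R244.CP.P_FRONT

/-!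
MP_df9226_an, Q1 (full positive answer): every compact subset of the Euclidean plane is mapped by a
contraction, with arbitrarily small loss of measure, onto a set which is exactly a polygon (its
boundary is covered by finitely many line segments).
-/

set_option autoImplicit false

namespace Pool.Agent.Results.MP_df9226_an.ExactPolygons

open MeasureTheory Set
open Pool.Agent.R244.CP (E2 IsPolygon)

/-- For every compact `K` in the plane and every `ε > 0` there is a contraction `f` of the whole
plane, moving no point by more than `ε`, such that `f(K)` is a polygon (its boundary is contained in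
the union of finitely many segments) and `λ²(f(K)) ≥ λ²(K) - ε`.  In particular every compact null
set `C` is mapped by a contraction with `|f(x) - x| ≤ ε` into a finite union of segments. -/
theorem result :
    (∀ K : Set E2, IsCompact K → ∀ ε : ℝ, 0 < ε →
      ∃ f : E2 → E2, LipschitzWith 1 f ∧ (∀ x, ‖f x - x‖ ≤ ε) ∧ IsPolygon (f '' K) ∧
        volume K ≤ volume (f '' K) + ENNReal.ofReal ε) ∧
    (∀ C : Set E2, IsCompact C → volume C = 0 → ∀ ε : ℝ, 0 < ε →
      ∃ f : E2 → E2, LipschitzWith 1 f ∧ (∀ x, ‖f x - x‖ ≤ ε) ∧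
        ∃ S : Finset (E2 × E2), f '' C ⊆ ⋃ s ∈ S, segment ℝ s.1 s.2) := by
  open Pool.Agent.R244.CP in
  have hN : S_NCFIN := t_NCFIN t_SD t_GRIDX t_GRIDQ
  have hL : S_LIM := t_LIM hN t_SUBG t_PL
  have hK : S_KEYB := t_KEYB hN t_SUBG t_PL
  have hP : S_PROX := t_PROX t_SUBG
  have hMain := Pool.Agent.R952.ExactPolygon.main hL hK hP
    (Pool.Agent.R952.ExactPolygon.t_POLY2 hP t_PL) t_PSET t_JORDAN t_APPROX t_MEAS t_ERODE
    (t_FRONT t_MEAS)
  refine ⟨hMain, fun C hC hC0 ε hε => ?_⟩
  obtain ⟨f, hf1, hfd, ⟨S, hS⟩, -⟩ := hMain C hC ε hε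
  refine ⟨f, hf1, hfd, S, ?_⟩
  have hnull : volume (f '' C) = 0 :=
    le_antisymm ((t_MEAS f hf1 C).trans (le_of_eq hC0)) bot_le
  have hint : interior (f '' C) = ∅ :=
    (isOpen_interior.measure_eq_zero_iff volume).1 (measure_mono_null interior_subset hnull)
  refine Subset.trans ?_ hS
  intro x hx
  exact ⟨subset_closure hx, by rw [hint]; exact notMem_empty x⟩

end Pool.Agent.Results.MP_df9226_an.ExactPolygons
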